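import Pool.Agent.W_MP_72c16c_nt.Main

namespace Pool.Agent.W_MP_72c16c_nt

open Polynomial

/-! ### The polynomial `Φ_{19 * 149}` -/

/-- The quotient. -/
def aQ : ℕ := (16 ^ (19 * 149) - 1) * (16 ^ 1 - 1) / ((16 ^ 19 - 1) * (16 ^ 149 - 1))

/-- The number whose digits are the coefficients of `Φ_{19 * 149}` plus one. -/
def aG : ℕ := aQ + 1 * ((16 ^ 2665 - 1) / (16 - 1))

theorem a_check1 : aQ * ((16 ^ 19 - 1) * (16 ^ 149 - 1)) = (16 ^ (19 * 149) - 1) * (16 ^ 1 - 1) := by
  decide +kernel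
theorem a_check2 : aG < 16 ^ 2665 := by decide +kernel
theorem a_check3 : (List.range 2665).all (fun k => decide (aG / 16 ^ k % 16 ≤ 2 * 1)) = true := by
  decide +kernel

theorem aG_eq : aQ + 1 * ∑ k ∈ Finset.range 2665, 16 ^ k = aG := by
  rw [geom 16 2665 (by norm_num), aG]

theorem phi_eq : cyclotomic (19 * 149) ℤ = dpoly 16 1 2665 aG := by
  rw [← aG_eq]
  refine phi_cert (by norm_num) (by norm_num) (by norm_num) (by norm_num) a_check1 ?_ ?_
  · rw [aG_eq]
    exact a_check2
  · rw [aG_eq]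
    intro k hk
    exact of_decide_eq_true (List.all_eq_true.mp a_check3 k (List.mem_range.mpr hk))

/-! ### The first product -/

/-- The quotient. -/
def cQ : ℕ :=
  (131072 ^ 19 - 1) * (131072 ^ 19 - 1) * (131072 ^ 149 - 1) * (131072 ^ 149 - 1) *
    (131072 ^ (19 ^ 2 * 149) - 1) * (131072 ^ (19 * 149 ^ 2) - 1) /
  ((131072 ^ 1 - 1) * (131072 ^ 1 - 1) * (131072 ^ (19 * 149) - 1) *
    (131072 ^ (19 * 149) - 1) * (131072 ^ (19 ^ 2) - 1) * (131072 ^ (149 ^ 2) - 1))

/-- The repunit. -/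
def cR : ℕ := (131072 ^ 447719 - 1) / (131072 - 1)

/-- The number whose digits are the coefficients of the first product plus 801. -/
def cG : ℕ := cQ + 801 * cR

theorem c_check1 : cQ * ((131072 ^ 1 - 1) * (131072 ^ 1 - 1) * (131072 ^ (19 * 149) - 1) *
    (131072 ^ (19 * 149) - 1) * (131072 ^ (19 ^ 2) - 1) * (131072 ^ (149 ^ 2) - 1)) =
    (131072 ^ 19 - 1) * (131072 ^ 19 - 1) * (131072 ^ 149 - 1) * (131072 ^ 149 - 1) *
    (131072 ^ (19 ^ 2 * 149) - 1) * (131072 ^ (19 * 149 ^ 2) - 1) := by decide +kernel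
theorem c_check2 : cG < 131072 ^ 447719 := by decide +kernel
theorem c_check3 : Nat.land cG (129024 * cR) = 0 := by decide +kernel
theorem c_check4 : Nat.land (cG + 445 * cR) (129024 * cR) = 0 := by decide +kernel

theorem cR_eq : ∑ k ∈ Finset.range 447719, 131072 ^ k = cR := geom 131072 447719 (by norm_num)

theorem c_small (k : ℕ) (hk : k < 447719) : cG / 131072 ^ k % 131072 < 2048 := by
  refine small_digits 447719 cG ?_ k hk
  rw [cR_eq]
  exact c_check3


theorem c_digits (k : ℕ) (hk : k < 447719) : cG / 131072 ^ k % 131072 ≤ 2 * 801 := by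
  have h := digits_le 447719 cG 445 c_check2 (by norm_num) c_small
    (by rw [cR_eq]; exact c_check4) k hk
  generalize cG / 131072 ^ k % 131072 = d at h
  omega


theorem f1_eq : f1 19 149 = dpoly 131072 801 447719 cG := by
  have hG : cQ + 801 * ∑ k ∈ Finset.range 447719, 131072 ^ k = cG := by
    rw [cR_eq, cG]
  rw [← hG]
  refine f1_cert (by norm_num) (by norm_num) (by norm_num) (by norm_num) c_check1 ?_ ?_
  · rw [hG]
    exact c_check2
  · rw [hG]
    exact c_digits

theorem f1_coeff (k : ℕ) : (f1 19 149).coeff k =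
    if k < 447719 then ((cG / 131072 ^ k % 131072 : ℕ) : ℤ) - (801 : ℕ) else 0 := by
  rw [f1_eq, dpoly_coeff]

theorem f1_coeff_le (k : ℕ) : |(f1 19 149).coeff k| ≤ 801 := by
  rw [f1_coeff]
  split_ifs with hk
  · have h1 := c_digits k hk
    generalize cG / 131072 ^ k % 131072 = d at h1
    rw [abs_le]
    omega
  · norm_num

/-! ### A large coefficient -/

/-- The divisor of large height. -/
noncomputable def f3 (p q : ℕ) : ℤ[X] := f1 p q * cyclotomic (p ^ 2 * q ^ 2) ℤ

/-- The sum of the first values of `f`. -/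
def sumTo (f : ℕ → ℤ) : ℕ → ℤ
  | 0 => 0
  | n + 1 => sumTo f n + f n

theorem sumTo_eq (f : ℕ → ℤ) (n : ℕ) : sumTo f n = ∑ i ∈ Finset.range n, f i := by
  induction n with
  | zero => rfl
  | succ n ih => rw [Finset.sum_range_succ, ← ih]; rfl

/-- The terms of the sum for the coefficient. -/
def term (i : ℕ) : ℤ :=
  (((aG / 16 ^ i % 16 : ℕ) : ℤ) - (1 : ℕ)) *
    (if 19 * 149 * i ≤ 1456798 then
      (if 1456798 - 19 * 149 * i < 447719 then
        ((cG / 131072 ^ (1456798 - 19 * 149 * i) % 131072 : ℕ) : ℤ) - (801 : ℕ) else 0) else 0)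

theorem term_sum : sumTo term 2665 = -835 := by decide +kernel

theorem f3_coeff : (f3 19 149).coeff 1456798 = -835 := by
  unfold f3
  rw [phi_ppqq (by norm_num) (by norm_num), phi_eq, coeff_mul_expand, ← term_sum, sumTo_eq]
  refine Finset.sum_congr rfl fun i _ => ?_
  rw [f1_coeff, term]

end Pool.Agent.W_MP_72c16c_nt
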