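import Pool.Agent.W_MP_72c16c_nt.Kron

/-!
Identities for the cyclotomic polynomials of index `p ^ i * q ^ j`.
-/

namespace Pool.Agent.W_MP_72c16c_nt

open Polynomial

theorem phi_p_mul {p : ℕ} (hp : p.Prime) : cyclotomic p ℤ * (X - 1) = X ^ p - 1 := by
  have := Fact.mk hp
  exact cyclotomic_prime_mul_X_sub_one ℤ p

theorem phi_pq_mul {p q : ℕ} (hp : p.Prime) (hq : q.Prime) (hpq : p ≠ q) :
    cyclotomic (p * q) ℤ * ((X ^ p - 1) * (X ^ q - 1)) = (X ^ (p * q) - 1) * (X - 1) := by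
  have h1 : expand ℤ q (cyclotomic p ℤ) = cyclotomic (p * q) ℤ * cyclotomic p ℤ :=
    cyclotomic_expand_eq_cyclotomic_mul hq
      (fun h => hpq ((Nat.prime_dvd_prime_iff_eq hq hp).mp h).symm) ℤ
  have h2 := congrArg (expand ℤ q) (phi_p_mul hp)
  simp only [map_mul, map_sub, map_pow, expand_X, map_one, h1] at h2
  rw [← phi_p_mul hp]
  calc cyclotomic (p * q) ℤ * (cyclotomic p ℤ * (X - 1) * (X ^ q - 1))
      = (cyclotomic (p * q) ℤ * cyclotomic p ℤ * (X ^ q - 1)) * (X - 1) := by ring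
    _ = ((X ^ q) ^ p - 1) * (X - 1) := by rw [h2]
    _ = _ := by rw [← pow_mul, mul_comm q p]

theorem phi_ppq_mul {p q : ℕ} (hp : p.Prime) (hq : q.Prime) (hpq : p ≠ q) :
    cyclotomic (p ^ 2 * q) ℤ * ((X ^ (p ^ 2) - 1) * (X ^ (p * q) - 1)) =
      (X ^ (p ^ 2 * q) - 1) * (X ^ p - 1) := by
  have h1 : expand ℤ p (cyclotomic (p * q) ℤ) = cyclotomic (p * q * p) ℤ :=
    cyclotomic_expand_eq_cyclotomic hp (dvd_mul_right p q) ℤ
  have h2 := congrArg (expand ℤ p) (phi_pq_mul hp hq hpq)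
  simp only [map_mul, map_sub, map_pow, expand_X, map_one, h1, ← pow_mul] at h2
  have e1 : p * q * p = p ^ 2 * q := by ring
  have e2 : p * p = p ^ 2 := by ring
  have e3 : p * (p * q) = p ^ 2 * q := by ring
  rw [e1, e2, e3] at h2
  exact h2

theorem phi_pqq_mul {p q : ℕ} (hp : p.Prime) (hq : q.Prime) (hpq : p ≠ q) :
    cyclotomic (p * q ^ 2) ℤ * ((X ^ (p * q) - 1) * (X ^ (q ^ 2) - 1)) =
      (X ^ (p * q ^ 2) - 1) * (X ^ q - 1) := by
  have h := phi_ppq_mul hq hp hpq.symm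
  rw [mul_comm (q ^ 2) p, mul_comm q p] at h
  rw [mul_comm (X ^ (p * q) - 1 : ℤ[X])]
  exact h

theorem phi_ppqq {p q : ℕ} (hp : p.Prime) (hq : q.Prime) :
    cyclotomic (p ^ 2 * q ^ 2) ℤ = expand ℤ (p * q) (cyclotomic (p * q) ℤ) := by
  rw [expand_mul, cyclotomic_expand_eq_cyclotomic hq (dvd_mul_left q p) ℤ,
    cyclotomic_expand_eq_cyclotomic hp ((dvd_mul_right p q).mul_right q) ℤ]
  congr 1
  ring

/-- The first product of the conjecture. -/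
noncomputable def f1 (p q : ℕ) : ℤ[X] :=
  cyclotomic p ℤ * cyclotomic q ℤ * cyclotomic (p ^ 2 * q) ℤ * cyclotomic (p * q ^ 2) ℤ

/-- The second product of the conjecture. -/
noncomputable def f2 (p q : ℕ) : ℤ[X] :=
  cyclotomic p ℤ * cyclotomic q ℤ * cyclotomic (p ^ 2) ℤ * cyclotomic (q ^ 2) ℤ

theorem f1_mul {p q : ℕ} (hp : p.Prime) (hq : q.Prime) (hpq : p ≠ q) :
    f1 p q * ((X ^ 1 - 1) * (X ^ 1 - 1) * (X ^ (p * q) - 1) * (X ^ (p * q) - 1) *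
      (X ^ (p ^ 2) - 1) * (X ^ (q ^ 2) - 1)) =
    1 * (X ^ p - 1) * (X ^ p - 1) * (X ^ q - 1) * (X ^ q - 1) * (X ^ (p ^ 2 * q) - 1) *
      (X ^ (p * q ^ 2) - 1) := by
  unfold f1
  have h1 := phi_p_mul hp
  have h2 := phi_p_mul hq
  have h3 := phi_ppq_mul hp hq hpq
  have h4 := phi_pqq_mul hp hq hpq
  rw [pow_one]
  calc _ = (cyclotomic p ℤ * (X - 1)) * (cyclotomic q ℤ * (X - 1)) *
        (cyclotomic (p ^ 2 * q) ℤ * ((X ^ (p ^ 2) - 1) * (X ^ (p * q) - 1))) *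
        (cyclotomic (p * q ^ 2) ℤ * ((X ^ (p * q) - 1) * (X ^ (q ^ 2) - 1))) := by ring
    _ = _ := by rw [h1, h2, h3, h4]; ring

theorem coeff_mul_expand (g : ℤ[X]) (n B T L G K : ℕ) :
    (g * expand ℤ n (dpoly B T L G)).coeff K = ∑ i ∈ Finset.range L,
      (((G / B ^ i % B : ℕ) : ℤ) - T) * (if n * i ≤ K then g.coeff (K - n * i) else 0) := by
  unfold dpoly
  rw [map_sum, Finset.mul_sum, finsetSum_coeff]
  refine Finset.sum_congr rfl fun i _ => ?_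
  rw [map_mul, expand_C, map_pow, expand_X, ← pow_mul, mul_left_comm, coeff_C_mul,
    coeff_mul_X_pow']

/-- The product `Φ_p Φ_q Φ_{p^2} Φ_{q^2}` in closed form. -/
theorem f2_eq {p q : ℕ} (hp : p.Prime) (hq : q.Prime) :
    f2 p q = (∑ i ∈ Finset.range (p ^ 2), X ^ i) * (∑ j ∈ Finset.range (q ^ 2), X ^ j) := by
  have key : ∀ {p : ℕ}, p.Prime →
      cyclotomic p ℤ * cyclotomic (p ^ 2) ℤ = ∑ i ∈ Finset.range (p ^ 2), X ^ i := by
    intro p hp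
    have := Fact.mk hp
    have h1 : cyclotomic (p ^ (1 + 1)) ℤ * (X ^ p ^ 1 - 1) = X ^ p ^ (1 + 1) - 1 :=
      cyclotomic_prime_pow_mul_X_pow_sub_one ℤ p 1
    rw [pow_one, ← phi_p_mul hp] at h1
    have h2 : (∑ i ∈ Finset.range (p ^ 2), X ^ i) * (X - 1) = (X ^ (p ^ 2) - 1 : ℤ[X]) :=
      geom_sum_mul X (p ^ 2)
    have h3 : (X - 1 : ℤ[X]) ≠ 0 := X_sub_C_ne_zero (1 : ℤ)
    apply mul_right_cancel₀ h3
    rw [h2, ← h1]
    norm_num
    ring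
  unfold f2
  rw [← key hp, ← key hq]
  ring

theorem f2_coeff_le {p q : ℕ} (hp : p.Prime) (hq : q.Prime) (k : ℕ) :
    |(f2 p q).coeff k| ≤ p ^ 2 := by
  rw [f2_eq hp hq, Finset.sum_mul, finsetSum_coeff]
  calc _ ≤ ∑ i ∈ Finset.range (p ^ 2),
        |(X ^ i * ∑ j ∈ Finset.range (q ^ 2), X ^ j : ℤ[X]).coeff k| :=
        Finset.abs_sum_le_sum_abs _ _
    _ ≤ ∑ i ∈ Finset.range (p ^ 2), 1 := by
        refine Finset.sum_le_sum fun i _ => ?_
        rw [coeff_X_pow_mul', finsetSum_coeff]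
        simp only [coeff_X_pow]
        rw [Finset.sum_ite_eq]
        split_ifs <;> simp
    _ = _ := by simp

end Pool.Agent.W_MP_72c16c_nt
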