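import Mathlib

/-!
Certifying the coefficients of an integer polynomial by Kronecker substitution.
-/

namespace Pool.Agent.W_MP_72c16c_nt

open Polynomial

theorem sum_lt (B : ℕ) (e : ℕ → ℕ) (he : ∀ k, e k < B) (k : ℕ) :
    ∑ i ∈ Finset.range k, e i * B ^ i < B ^ k := by
  induction k with
  | zero => simp
  | succ k ih =>
    rw [Finset.sum_range_succ, pow_succ]
    have h1 := he k
    have h2 : e k * B ^ k + B ^ k ≤ B ^ k * B := by
      have : (e k + 1) * B ^ k ≤ B * B ^ k := Nat.mul_le_mul_right _ h1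
      nlinarith
    omega

theorem digit_sum (B : ℕ) (e : ℕ → ℕ) (he : ∀ k, e k < B) (L k : ℕ) (hk : k < L) :
    (∑ i ∈ Finset.range L, e i * B ^ i) / B ^ k % B = e k := by
  have hB : 0 < B := lt_of_le_of_lt (Nat.zero_le _) (he 0)
  obtain ⟨m, rfl⟩ := Nat.exists_eq_add_of_lt hk
  have h1 : ∑ i ∈ Finset.range (k + m + 1), e i * B ^ i =
      ∑ i ∈ Finset.range k, e i * B ^ i +
        B ^ k * (e k + B * ∑ i ∈ Finset.range m, e (k + (i + 1)) * B ^ i) := by
    rw [add_assoc, Finset.sum_range_add, Finset.sum_range_succ', mul_add, Finset.mul_sum,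
      Finset.mul_sum]
    congr 1
    rw [add_comm]
    congr 1
    · rw [add_zero, mul_comm]
    · refine Finset.sum_congr rfl fun i _ => ?_
      rw [← add_assoc, pow_add, pow_add, pow_one]
      ring
  rw [h1, Nat.add_mul_div_left _ _ (pow_pos hB k), Nat.div_eq_of_lt (sum_lt B e he k), zero_add,
    Nat.add_mul_mod_self_left, Nat.mod_eq_of_lt (he k)]

theorem sum_digits (B G L : ℕ) :
    ∑ k ∈ Finset.range L, (G / B ^ k % B) * B ^ k = G % B ^ L := by
  induction L with
  | zero => simp [Nat.mod_one]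
  | succ L ih => rw [Finset.sum_range_succ, ih, Nat.mod_pow_succ, mul_comm]

/-- The digits of `X` are small if the higher bits of all digits vanish. -/
theorem small_digits (L X : ℕ)
    (h : Nat.land X (129024 * ∑ i ∈ Finset.range L, 131072 ^ i) = 0) (k : ℕ) (hk : k < L) :
    X / 131072 ^ k % 131072 < 2048 := by
  have h1 : (129024 * ∑ i ∈ Finset.range L, 131072 ^ i) / 131072 ^ k % 131072 = 129024 := by
    rw [Finset.mul_sum]
    exact digit_sum 131072 (fun _ => 129024) (fun _ => by norm_num) L k hk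
  have e1 : (131072 : ℕ) ^ k = 2 ^ (17 * k) := by
    rw [pow_mul]
    norm_num
  have e2 : (131072 : ℕ) = 2 ^ 17 := by norm_num
  have h2 : (X / 131072 ^ k % 131072) &&& 129024 = 0 := by
    rw [← h1, e1, e2, ← Nat.and_mod_two_pow, ← Nat.and_div_two_pow]
    have : X &&& (129024 * ∑ i ∈ Finset.range L, (2 ^ 17) ^ i) = 0 := by
      rw [← e2]
      exact h
    rw [this]
    simp
  have h3 : X / 131072 ^ k % 131072 < 2 ^ 17 := by
    rw [← e2]
    exact Nat.mod_lt _ (by norm_num)
  generalize X / 131072 ^ k % 131072 = d at h2 h3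
  change d < 2 ^ 11
  apply Nat.lt_pow_two_of_testBit
  intro i hi
  by_cases h17 : 17 ≤ i
  · exact Nat.testBit_lt_two_pow (lt_of_lt_of_le h3 (Nat.pow_le_pow_right (by norm_num) h17))
  · have h4 : (d &&& 129024).testBit i = false := by rw [h2]; simp
    rw [Nat.testBit_and] at h4
    have h5 : Nat.testBit 129024 i = true := by
      push Not at h17
      interval_cases i <;> decide
    rw [h5, Bool.and_true] at h4
    exact h4

/-- A sharper bound for the digits. -/
theorem digits_le (L G t : ℕ) (hG : G < 131072 ^ L) (ht : t + 2048 ≤ 131072)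
    (h1 : ∀ k < L, G / 131072 ^ k % 131072 < 2048)
    (h2 : Nat.land (G + t * ∑ i ∈ Finset.range L, 131072 ^ i)
      (129024 * ∑ i ∈ Finset.range L, 131072 ^ i) = 0) (k : ℕ) (hk : k < L) :
    G / 131072 ^ k % 131072 + t < 2048 := by
  have h3 : G + t * ∑ i ∈ Finset.range L, 131072 ^ i =
      ∑ i ∈ Finset.range L, (G / 131072 ^ i % 131072 + t) * 131072 ^ i := by
    simp only [add_mul]
    rw [Finset.sum_add_distrib, sum_digits, Nat.mod_eq_of_lt hG, ← Finset.mul_sum]
  have he : ∀ i, G / 131072 ^ i % 131072 + t < 131072 := by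
    intro i
    by_cases hi : i < L
    · have := h1 i hi
      omega
    · have h4 : G < 131072 ^ i :=
        lt_of_lt_of_le hG (Nat.pow_le_pow_right (by norm_num) (by omega))
      rw [Nat.div_eq_of_lt h4, Nat.zero_mod]
      omega
  have h5 := small_digits L _ h2 k hk
  rw [h3, digit_sum 131072 (fun i => G / 131072 ^ i % 131072 + t) he L k hk] at h5
  exact h5

/-- Kronecker substitution: a polynomial with small coefficients is determined by its value. -/
theorem eq_zero_of_eval (h : ℤ[X]) (B : ℤ) (hB : ∀ k, |h.coeff k| < B) (h0 : h.eval B = 0) :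
    h = 0 := by
  by_contra hne
  have hBpos : 0 < B := lt_of_le_of_lt (abs_nonneg _) (hB 0)
  obtain ⟨g, hg⟩ : X ^ h.natTrailingDegree ∣ h :=
    X_pow_dvd_iff.mpr fun d hd => coeff_eq_zero_of_lt_natTrailingDegree hd
  have hc : g.coeff 0 = h.coeff h.natTrailingDegree := by
    have := coeff_X_pow_mul g h.natTrailingDegree 0
    rw [zero_add, ← hg] at this
    exact this.symm
  have hc0 : g.coeff 0 ≠ 0 := by
    rw [hc]
    exact trailingCoeff_nonzero_iff_nonzero.mpr hne
  have he : g.eval B = 0 := by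
    rw [hg, eval_mul, eval_pow, eval_X] at h0
    rcases mul_eq_zero.mp h0 with h1 | h1
    · exact absurd h1 (pow_ne_zero _ hBpos.ne')
    · exact h1
  have hd : B ∣ g.coeff 0 := by
    have h1 := sub_dvd_eval_sub B 0 g
    rw [he, ← coeff_zero_eq_eval_zero, sub_zero, zero_sub] at h1
    exact (dvd_neg).mp h1
  apply hc0
  refine Int.eq_zero_of_abs_lt_dvd hd ?_
  rw [hc]
  exact hB _

/-- Multiplication by `X ^ a - 1` at most doubles the coefficients. -/
theorem bound_mul {g : ℤ[X]} {M : ℤ} (hg : ∀ k, |g.coeff k| ≤ M) (a : ℕ) :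
    ∀ k, |(g * (X ^ a - 1)).coeff k| ≤ 2 * M := by
  intro k
  rw [mul_sub, mul_one, coeff_sub, coeff_mul_X_pow']
  have h1 := hg k
  have h0 : 0 ≤ M := (abs_nonneg _).trans h1
  have h2 : |if a ≤ k then g.coeff (k - a) else 0| ≤ M := by
    split_ifs
    · exact hg _
    · rw [abs_zero]; exact h0
  calc _ ≤ |if a ≤ k then g.coeff (k - a) else 0| + |g.coeff k| := abs_sub _ _
    _ ≤ 2 * M := by linarith

/-- The polynomial whose coefficients are the first `L` digits of `G` in base `B`, minus `T`. -/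
noncomputable def dpoly (B T L G : ℕ) : ℤ[X] :=
  ∑ k ∈ Finset.range L, C (((G / B ^ k % B : ℕ) : ℤ) - T) * X ^ k

theorem dpoly_coeff (B T L G k : ℕ) :
    (dpoly B T L G).coeff k = if k < L then ((G / B ^ k % B : ℕ) : ℤ) - T else 0 := by
  unfold dpoly
  rw [finsetSum_coeff]
  simp only [coeff_C_mul, coeff_X_pow, mul_ite, mul_one, mul_zero]
  rw [Finset.sum_ite_eq]
  simp only [Finset.mem_range]

theorem dpoly_eval (B T L G : ℕ) (hG : G < B ^ L) :
    (dpoly B T L G).eval (B : ℤ) = (G : ℤ) - T * ∑ k ∈ Finset.range L, (B : ℤ) ^ k := by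
  unfold dpoly
  rw [eval_finsetSum]
  simp only [eval_mul, eval_C, eval_pow, eval_X, sub_mul]
  rw [Finset.sum_sub_distrib, ← Finset.mul_sum]
  congr 1
  have h := sum_digits B G L
  rw [Nat.mod_eq_of_lt hG] at h
  calc _ = ((∑ k ∈ Finset.range L, (G / B ^ k % B) * B ^ k : ℕ) : ℤ) := by push_cast; rfl
    _ = _ := by rw [h]

/-- Certificate for the coefficients of a polynomial `F` given as a quotient `N / D`. -/
theorem cert {F N D : ℤ[X]} (hFD : F * D = N) (hD : D ≠ 0) {B T L Q Dn Nn : ℕ} {dD ν : ℤ}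
    (hDb : ∀ (g : ℤ[X]) (M : ℤ), (∀ k, |g.coeff k| ≤ M) → ∀ k, |(g * D).coeff k| ≤ dD * M)
    (hN : ∀ k, |N.coeff k| ≤ ν) (hlt : dD * T + ν < B)
    (evD : D.eval (B : ℤ) = Dn) (evN : N.eval (B : ℤ) = Nn) (hQ : Q * Dn = Nn)
    (hG : Q + T * ∑ k ∈ Finset.range L, B ^ k < B ^ L)
    (hd : ∀ k < L, (Q + T * ∑ k ∈ Finset.range L, B ^ k) / B ^ k % B ≤ 2 * T) :
    F = dpoly B T L (Q + T * ∑ k ∈ Finset.range L, B ^ k) := by
  set G := Q + T * ∑ k ∈ Finset.range L, B ^ k with hGdef
  set g := dpoly B T L G with hg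
  have hb : ∀ k, |g.coeff k| ≤ (T : ℤ) := by
    intro k
    rw [hg, dpoly_coeff]
    split_ifs with hk
    · have h1 := hd k hk
      rw [abs_le]
      constructor
      · have : (0 : ℤ) ≤ ((G / B ^ k % B : ℕ) : ℤ) := Int.natCast_nonneg _
        linarith
      · have : ((G / B ^ k % B : ℕ) : ℤ) ≤ ((2 * T : ℕ) : ℤ) := Int.ofNat_le.mpr h1
        push_cast at this ⊢
        linarith
    · rw [abs_zero]
      exact Int.natCast_nonneg _
  have hev : (g * D - N).eval (B : ℤ) = 0 := by
    rw [eval_sub, eval_mul, evD, evN, hg, dpoly_eval B T L G hG, hGdef, ← hQ]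
    push_cast
    ring
  have h0 : g * D - N = 0 := by
    refine eq_zero_of_eval _ B ?_ hev
    intro k
    rw [coeff_sub]
    have h1 := hDb g T hb k
    have h2 := hN k
    calc _ ≤ |(g * D).coeff k| + |N.coeff k| := abs_sub _ _
      _ < B := by linarith
  have h1 : F * D = g * D := by rw [hFD]; exact (sub_eq_zero.mp h0).symm
  exact mul_right_cancel₀ hD h1

end Pool.Agent.W_MP_72c16c_nt
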