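import Pool.Agent.W_MP_72c16c_nt.Cyc

/-!
The computation for `p = 19`, `q = 149`.
-/

namespace Pool.Agent.W_MP_72c16c_nt

open Polynomial

theorem eval_pow_sub_one (B a : ℕ) (hB : 0 < B) :
    (X ^ a - 1 : ℤ[X]).eval (B : ℤ) = ((B ^ a - 1 : ℕ) : ℤ) := by
  rw [eval_sub, eval_pow, eval_X, eval_one, Nat.cast_sub (Nat.one_le_pow _ _ hB), Nat.cast_pow,
    Nat.cast_one]

theorem geom (B L : ℕ) (hB : 2 ≤ B) : ∑ k ∈ Finset.range L, B ^ k = (B ^ L - 1) / (B - 1) :=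
  Nat.geomSum_eq hB L

theorem one_bound : ∀ k, |(1 : ℤ[X]).coeff k| ≤ 1 := by
  intro k
  rw [coeff_one]
  split_ifs <;> simp

theorem pow_sub_one_ne {a : ℕ} (ha : 0 < a) : (X ^ a - 1 : ℤ[X]) ≠ 0 :=
  X_pow_sub_C_ne_zero ha (1 : ℤ)

/-- Certificate for `Φ_{pq}`. -/
theorem phi_cert {p q : ℕ} (hp : p.Prime) (hq : q.Prime) (hpq : p ≠ q) {B L Q : ℕ} (hB : 8 < B)
    (hQ : Q * ((B ^ p - 1) * (B ^ q - 1)) = (B ^ (p * q) - 1) * (B ^ 1 - 1))
    (hG : Q + 1 * ∑ k ∈ Finset.range L, B ^ k < B ^ L)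
    (hd : ∀ k < L, (Q + 1 * ∑ k ∈ Finset.range L, B ^ k) / B ^ k % B ≤ 2 * 1) :
    cyclotomic (p * q) ℤ = dpoly B 1 L (Q + 1 * ∑ k ∈ Finset.range L, B ^ k) := by
  have h := phi_pq_mul hp hq hpq
  rw [← pow_one (X : ℤ[X]), ← pow_mul, ← pow_mul, ← pow_mul, one_mul, one_mul, one_mul] at h
  refine cert h ?_ (dD := 4) (ν := 4) ?_ ?_ ?_ ?_ ?_ hQ hG hd
  · exact mul_ne_zero (pow_sub_one_ne hp.pos) (pow_sub_one_ne hq.pos)
  · intro g M hg k
    have := bound_mul (bound_mul hg p) q k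
    rw [← mul_assoc]
    calc _ ≤ _ := this
      _ = _ := by ring
  · intro k
    have := bound_mul (bound_mul one_bound (p * q)) 1 k
    rw [one_mul] at this
    calc _ ≤ _ := this
      _ = _ := by norm_num
  · push_cast
    have : (8 : ℤ) < B := by exact_mod_cast hB
    linarith
  · rw [eval_mul, eval_pow_sub_one _ _ (by omega), eval_pow_sub_one _ _ (by omega), Nat.cast_mul]
  · rw [eval_mul, eval_pow_sub_one _ _ (by omega), eval_pow_sub_one _ _ (by omega), Nat.cast_mul]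

/-- Certificate for the first product. -/
theorem f1_cert {p q : ℕ} (hp : p.Prime) (hq : q.Prime) (hpq : p ≠ q) {B T L Q : ℕ}
    (hB : 64 * T + 64 < B)
    (hQ : Q * ((B ^ 1 - 1) * (B ^ 1 - 1) * (B ^ (p * q) - 1) * (B ^ (p * q) - 1) *
      (B ^ (p ^ 2) - 1) * (B ^ (q ^ 2) - 1)) =
      (B ^ p - 1) * (B ^ p - 1) * (B ^ q - 1) * (B ^ q - 1) * (B ^ (p ^ 2 * q) - 1) *
      (B ^ (p * q ^ 2) - 1))
    (hG : Q + T * ∑ k ∈ Finset.range L, B ^ k < B ^ L)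
    (hd : ∀ k < L, (Q + T * ∑ k ∈ Finset.range L, B ^ k) / B ^ k % B ≤ 2 * T) :
    f1 p q = dpoly B T L (Q + T * ∑ k ∈ Finset.range L, B ^ k) := by
  have h := f1_mul hp hq hpq
  have hB0 : 0 < B := by omega
  refine cert h ?_ (dD := 64) (ν := 64) ?_ ?_ ?_ ?_ ?_ hQ hG hd
  · have h1 := pow_sub_one_ne (a := 1) one_pos
    have h2 := pow_sub_one_ne (Nat.mul_pos hp.pos hq.pos)
    have h3 := pow_sub_one_ne (pow_pos hp.pos 2)
    have h4 := pow_sub_one_ne (pow_pos hq.pos 2)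
    exact mul_ne_zero (mul_ne_zero (mul_ne_zero (mul_ne_zero (mul_ne_zero h1 h1) h2) h2) h3) h4
  · intro g M hg k
    have := bound_mul (bound_mul (bound_mul (bound_mul (bound_mul (bound_mul hg 1) 1) (p * q))
      (p * q)) (p ^ 2)) (q ^ 2) k
    simp only [← mul_assoc] at this ⊢
    calc _ ≤ _ := this
      _ = _ := by ring
  · intro k
    have := bound_mul (bound_mul (bound_mul (bound_mul (bound_mul (bound_mul one_bound p) p) q)
      q) (p ^ 2 * q)) (p * q ^ 2) k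
    calc _ ≤ _ := this
      _ = _ := by norm_num
  · exact_mod_cast hB
  · simp only [eval_mul, eval_pow_sub_one _ _ hB0, Nat.cast_mul]
  · simp only [eval_mul, eval_pow_sub_one _ _ hB0, Nat.cast_mul, one_mul]

end Pool.Agent.W_MP_72c16c_nt
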